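import Pool.Agent.Y977.ME.NearC

/-!
ME-NEAR: no small ball contains many of the blocks near the path (conclusion).
-/

set_option autoImplicit false

namespace Pool.Agent.Y977.ME

open H974 Finset H342P H984P H984N
open Pool.Agent.Y985.ME

theorem num3 {Cf y : ℝ} (hCf : 0 < Cf) (hy1 : 1 ≤ y) (hyCf : 144 * 121 * Cf ≤ y) :
    144 * y ^ 8 * y ^ 16 * (121 * (Cf * y ^ 35) / (y ^ 33) ^ 2) ≤ y⁻¹ := by
  have hyp : 0 < y := by linarith
  calc 144 * y ^ 8 * y ^ 16 * (121 * (Cf * y ^ 35) / (y ^ 33) ^ 2)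
      = (144 * 121 * Cf) / y ^ 7 := by field_simp
    _ ≤ y / y ^ 7 := div_le_div_of_nonneg_right hyCf (by positivity)
    _ ≤ y⁻¹ := by
        rw [inv_eq_one_div, div_le_div_iff₀ (by positivity) hyp]
        have : y ^ 2 ≤ y ^ 7 := pow_le_pow_right₀ hy1 (by norm_num)
        nlinarith

theorem numX {y w c : ℝ} (hyp : 0 < y) (hw : 0 < w) (hc : 0 < c) :
    9 * (y * (4 * (w * y ^ 16)) ^ (7 / 4 : ℝ)) / (c * w ^ (7 / 4 : ℝ)) =
      9 * 4 ^ (7 / 4 : ℝ) / c * y ^ 29 := by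
  have h1 : (4 * (w * y ^ 16)) ^ (7 / 4 : ℝ) = 4 ^ (7 / 4 : ℝ) * (w ^ (7 / 4 : ℝ) * y ^ 28) := by
    rw [Real.mul_rpow (by norm_num) (by positivity), Real.mul_rpow hw.le (by positivity)]
    congr 2
    rw [← Real.rpow_natCast y 16, ← Real.rpow_mul hyp.le, ← Real.rpow_natCast y 28]
    congr 1
    norm_num
  rw [h1]
  have h2 : 0 < w ^ (7 / 4 : ℝ) := by positivity
  generalize w ^ (7 / 4 : ℝ) = a at h2 ⊢
  generalize (4:ℝ) ^ (7 / 4 : ℝ) = b
  field_simp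

theorem near : S_BLK → S_OCC → S_FM → S_LLN → S_NEAR := by
  intro hBLK hOCC hFM hLLN κ hκ
  obtain ⟨c, s0, hc, hs0, hblk⟩ := hBLK (1 / 98) (by norm_num)
  obtain ⟨l, Co, hl, hCo, hocc⟩ := hOCC
  obtain ⟨Cf, hCf, hfm⟩ := hFM κ hκ
  have h47 : (0:ℝ) < 4 ^ (7 / 4 : ℝ) := by positivity
  obtain ⟨K1, hK1⟩ : ∃ K1 : ℝ, K1 = 98 * (9 * 4 ^ (7 / 4 : ℝ) / c) := ⟨_, rfl⟩
  have hK1p : 0 < K1 := by rw [hK1]; positivity
  obtain ⟨y0, hy0⟩ : ∃ y0 : ℝ, y0 = 500 + 4 * K1 + Co * l ^ 16 + 144 * 121 * Cf := ⟨_, rfl⟩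
  have hCl : 0 < Co * l ^ 16 := by positivity
  have hy0p : 0 < y0 := by rw [hy0]; positivity
  obtain ⟨C, hC⟩ : ∃ C : ℝ, C = y0 ^ 20 + s0 + s0 / κ + 2 / κ + 2 := ⟨_, rfl⟩
  have hp1 : 0 < y0 ^ 20 := by positivity
  have hp2 : 0 < s0 / κ := by positivity
  have hp3 : 0 < 2 / κ := by positivity
  refine ⟨C, by rw [hC]; positivity, ?_⟩
  intro D n W hS hCW hCn
  have hW2 : (2:ℝ) ≤ W := by linarith
  have hWr : (0:ℝ) < W := by linarith
  have hW : 0 < W := by exact_mod_cast hWr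
  have hW1 : 1 ≤ W := by omega
  have hCp : 0 < C := by rw [hC]; positivity
  have hn : 0 < n := lt_of_lt_of_le (mul_pos hCp hWr) hCn
  have hU : C ≤ n / W := by rw [le_div_iff₀ hWr]; exact hCn
  have hUp : 0 < n / W := by positivity
  obtain ⟨y, hyd⟩ : ∃ y : ℝ, y = (n / W) ^ (1 / 20 : ℝ) := ⟨_, rfl⟩
  have hyp : 0 < y := by rw [hyd]; positivity
  have hyU : y ^ 20 = n / W := by
    rw [hyd, ← Real.rpow_natCast, ← Real.rpow_mul hUp.le]
    norm_num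
  have hy0y : y0 ≤ y := by
    by_contra h
    push Not at h
    have := pow_lt_pow_left₀ h hyp.le (by norm_num : 20 ≠ 0)
    linarith
  have hy500 : 500 + 4 * K1 ≤ y := by
    have : 0 < 144 * 121 * Cf := by positivity
    linarith
  have hyCl : Co * l ^ 16 ≤ y := by
    have : 0 < 144 * 121 * Cf := by positivity
    linarith
  have hyCf : 144 * 121 * Cf ≤ y := by linarith
  have hy1 : 1 ≤ y := by linarith
  have hn' : n = W * y ^ 20 := by rw [hyU]; field_simp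
  have e1 : (n / W) ^ (7 / 4 - 1 / 20 : ℝ) = y ^ 34 := by
    rw [← hyU]; exact pw hyp _ 34 (by norm_num)
  have e2 : (n / W) ^ (7 / 4 : ℝ) = y ^ 35 := by
    rw [← hyU]; exact pw hyp _ 35 (by norm_num)
  have eW : (W : ℝ) / n = (y ^ 20)⁻¹ := by rw [hyU, inv_div]
  have e3 : ((W : ℝ) / n) ^ (1 / 20 : ℝ) = y⁻¹ := by
    rw [eW, Real.inv_rpow (by positivity), pw hyp _ 1 (by norm_num), pow_one]
  have e4 : n * ((W : ℝ) / n) ^ (1 / 5 : ℝ) = W * y ^ 16 := by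
    rw [eW, Real.inv_rpow (by positivity), pw hyp _ 4 (by norm_num), hn']
    field_simp
  obtain ⟨ρ, hρ⟩ : ∃ ρ : ℝ, ρ = W * y ^ 16 := ⟨_, rfl⟩
  have hy16 : y ≤ y ^ 16 := le_self_pow₀ hy1 (by norm_num)
  have hy4 : y ≤ y ^ 4 := le_self_pow₀ hy1 (by norm_num)
  have hρp : 0 < ρ := by rw [hρ]; positivity
  have hρ5 : 5 * (W:ℝ) ≤ ρ := by
    rw [hρ, mul_comm (5:ℝ)]
    exact mul_le_mul_of_nonneg_left (by linarith) hWr.le
  have h4ρ : 4 * ρ ≤ n := by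
    rw [hρ, hn']
    have h1 : 4 * y ^ 16 ≤ y ^ 20 := by
      calc 4 * y ^ 16 ≤ y ^ 4 * y ^ 16 :=
            mul_le_mul_of_nonneg_right (by linarith) (by positivity)
        _ = y ^ 20 := by ring
    rw [mul_left_comm]
    exact mul_le_mul_of_nonneg_left h1 hWr.le
  have hn4 : n / (4 * ρ) = y ^ 4 / 4 := by
    rw [hρ, hn']
    field_simp
  -- the first event
  have hE1 : P D.edges (fun F => ∃ v : Vtx, y * (4 * ρ) ^ (7 / 4 : ℝ) ≤
      ((Ts D v (4 * ρ) F).card : ℝ)) ≤ y⁻¹ := by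
    have h1 := hocc D n (4 * ρ) y hS.ok hS.w_le hS.h_le (by linarith) h4ρ hyp.le
    rw [hn4] at h1
    exact h1.trans (num2 hCo.le hl hy1 hyCl)
  -- the bad blocks
  have hκn : κ * C * W ≤ κ * n := by
    have := mul_le_mul_of_nonneg_left hCn hκ.le
    linarith
  have hκC1 : s0 ≤ κ * C := by
    have h1 : s0 / κ ≤ C := by linarith
    rw [div_le_iff₀ hκ] at h1
    linarith
  have hκC2 : 2 ≤ κ * C := by
    have h1 : 2 / κ ≤ C := by linarith
    rw [div_le_iff₀ hκ] at h1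
    linarith
  have hs1 : s0 * W ≤ κ * n := (mul_le_mul_of_nonneg_right hκC1 hWr.le).trans hκn
  have hs2 : 2 * W ≤ κ * n := (mul_le_mul_of_nonneg_right hκC2 hWr.le).trans hκn
  have hl1 := hS.l_ge
  have hr1 := hS.r_ge
  have hh1 := hS.h_ge
  obtain ⟨Bad, hloc, hpr, hslow⟩ := hblk D W hS.ok (by linarith) (by linarith) (by linarith)
    (by linarith)
  have hh2 : 2 * W ≤ D.h := by
    have : (2:ℝ) * W ≤ D.h := by linarith
    exact_mod_cast this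
  -- the number of the blocks near the path
  have hWn : (W:ℝ) ≤ n := by linarith
  have hMq : ∑ q ∈ Bks D W, P D.edges (Tch D W q) ≤ Cf * y ^ 35 := by
    have h1 := hfm D n n W hS hW1 hWn le_rfl
    rw [div_self hn.ne', Real.one_rpow, mul_one, e2] at h1
    refine le_trans (le_of_eq ?_) h1
    rw [Finset.filter_true_of_mem]
    intro q hq
    have h2 : D.bd (q.1 * W, q.2 * W) ≤ D.h := by
      unfold Bks at hq
      rw [Finset.mem_product, Finset.mem_Icc, Finset.mem_Icc] at hq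
      have h3 : 0 ≤ q.2 * W := mul_nonneg hq.2.1 hW.le
      unfold Dm.bd
      dsimp only
      omega
    have h3 : ((D.bd (q.1 * W, q.2 * W) : ℤ) : ℝ) ≤ D.h := by exact_mod_cast h2
    exact h3.trans hS.h_le
  obtain ⟨g, hg⟩ : ∃ g : ℤ, g = ⌊ρ⌋ := ⟨_, rfl⟩
  obtain ⟨m1, hm1⟩ : ∃ m1 : ℕ, m1 = ⌊y ^ 16 / 3⌋₊ := ⟨_, rfl⟩
  have hgρ : (g:ℝ) ≤ ρ := by rw [hg]; exact Int.floor_le ρ
  have hWg : W ≤ g := by rw [hg]; exact Int.le_floor.2 (by linarith)
  have hg0 : 0 < g := by omega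
  have hgr : (0:ℝ) < g := by exact_mod_cast hg0
  have hρg : ρ ≤ 2 * g := by
    have h1 := Int.lt_floor_add_one ρ
    rw [← hg] at h1
    have h2 : (1:ℝ) ≤ g := by exact_mod_cast (by omega : 1 ≤ g)
    linarith
  have hm1r : (m1:ℝ) ≤ y ^ 16 / 3 := by rw [hm1]; exact Nat.floor_le (by positivity)
  -- the second event
  have hE2 : P D.edges (fun F => ∃ p ∈ Gi D W g ×ˢ Finset.range m1, y ^ 33 ≤
      |fl D W Bad (g * p.1.1, g * p.1.2) (2 * ρ + 3 * W * ((p.2 : ℕ) + 1)) F|) ≤ y⁻¹ := by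
    refine (Pr_exists_le hok _ _ _).trans ?_
    have h1 : ∀ p ∈ Gi D W g ×ˢ Finset.range m1, P D.edges (fun F => y ^ 33 ≤
        |fl D W Bad (g * p.1.1, g * p.1.2) (2 * ρ + 3 * W * ((p.2 : ℕ) + 1)) F|) ≤
        121 * (Cf * y ^ 35) / (y ^ 33) ^ 2 :=
      fun p _ => fl_prob hLLN hS.ok hW1 hloc hMq _ _ (by positivity)
    refine (Finset.sum_le_card_nsmul _ _ _ h1).trans ?_
    rw [nsmul_eq_mul, Finset.card_product, Finset.card_range]
    push_cast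
    have h2 := card_Gi hS.ok hW hWg hS.w_le hS.h_le (by linarith)
    have h3 : n / g ≤ 2 * y ^ 4 := by
      rw [div_le_iff₀ hgr]
      have h4 : n = ρ * y ^ 4 := by rw [hn', hρ]; ring
      rw [h4]
      have : ρ * y ^ 4 ≤ 2 * g * y ^ 4 := mul_le_mul_of_nonneg_right hρg (by positivity)
      linarith
    have h4 : ((Gi D W g).card : ℝ) ≤ 144 * y ^ 8 := by
      refine h2.trans ?_
      have h5 : (n / g) ^ 2 ≤ (2 * y ^ 4) ^ 2 := pow_le_pow_left₀ (by positivity) h3 2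
      calc 36 * (n / g) ^ 2 ≤ 36 * (2 * y ^ 4) ^ 2 := by linarith
        _ = 144 * y ^ 8 := by ring
    have h5 : (m1:ℝ) ≤ y ^ 16 := by
      have : 0 < y ^ 16 := by positivity
      linarith
    have h6 : ((Gi D W g).card : ℝ) * m1 ≤ 144 * y ^ 8 * y ^ 16 :=
      mul_le_mul h4 h5 (by positivity) (by positivity)
    exact (mul_le_mul_of_nonneg_right h6 (by positivity)).trans (num3 hCf hy1 hyCf)
  -- conclusion
  rw [e3]
  have hfin : P D.edges (fun F => (∃ v : Vtx, y * (4 * ρ) ^ (7 / 4 : ℝ) ≤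
      ((Ts D v (4 * ρ) F).card : ℝ)) ∨ ∃ p ∈ Gi D W g ×ˢ Finset.range m1, y ^ 33 ≤
      |fl D W Bad (g * p.1.1, g * p.1.2) (2 * ρ + 3 * W * ((p.2 : ℕ) + 1)) F|) ≤ C * y⁻¹ := by
    refine (Pr_or_le hok _ _ _).trans ?_
    have h1 : 0 < y⁻¹ := by positivity
    have h2 : 2 * y⁻¹ ≤ C * y⁻¹ := mul_le_mul_of_nonneg_right (by linarith) h1.le
    linarith
  refine le_trans (Pr_mono hok ?_) hfin
  rintro F hF ⟨v, hv⟩
  by_contra hcon
  push Not at hcon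
  obtain ⟨hc1, hc2⟩ := hcon
  rw [e1, e4, ← hρ] at hv
  have hv' : y ^ 34 ≤ Aq D W v ρ F := by
    classical
    refine hv.trans (le_of_eq ?_)
    unfold Aq Qs
    rw [← card_ind, Finset.filter_filter]
    congr 2
    ext q
    simp only [Finset.mem_filter]
    tauto
  have hne : ∃ q ∈ Bks D W, ((sd (q.1 * W, q.2 * W) v : ℤ) : ℝ) ≤ ρ := by
    by_contra hcon
    push Not at hcon
    have h1 : Qs D W v ρ = ∅ := by
      rw [Finset.eq_empty_iff_forall_notMem]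
      intro q hq
      rw [mem_Qs] at hq
      have := hcon q hq.1
      linarith [hq.2]
    unfold Aq at hv'
    rw [h1, Finset.sum_empty] at hv'
    have : 0 < y ^ 34 := by positivity
    linarith
  obtain ⟨q, hq, hqv⟩ := hne
  have hqg : sd (q.1 * W, q.2 * W) v ≤ g := by rw [hg]; exact Int.le_floor.2 hqv
  have hgrid := grid hW hg0 hq hqg
  have hvv : sd v (g * (v.1 / g), g * (v.2 / g)) ≤ g := by
    have h1 := Int.mul_ediv_add_emod v.1 g
    have h2 := Int.emod_nonneg v.1 hg0.ne'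
    have h3 := Int.emod_lt_of_pos v.1 hg0
    have h4 := Int.mul_ediv_add_emod v.2 g
    have h5 := Int.emod_nonneg v.2 hg0.ne'
    have h6 := Int.emod_lt_of_pos v.2 hg0
    rw [det_sd_eq]
    dsimp only
    omega
  have hvvr : ((sd v (g * (v.1 / g), g * (v.2 / g)) : ℤ) : ℝ) ≤ ρ := by
    have : ((sd v (g * (v.1 / g), g * (v.2 / g)) : ℤ) : ℝ) ≤ g := by exact_mod_cast hvv
    linarith
  have hA2 : Aq D W v ρ F ≤ Aq D W (g * (v.1 / g), g * (v.2 / g)) (2 * ρ) F := by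
    unfold Aq
    apply Finset.sum_le_sum_of_subset_of_nonneg
    · intro q' hq'
      rw [mem_Qs] at hq' ⊢
      refine ⟨hq'.1, ?_⟩
      have := sd_triR _ _ _ hq'.2 hvvr
      linarith
    · intro _ _ _
      exact ind_nonneg _
  have hm1' : 3 * (W:ℝ) * m1 ≤ ρ := by
    rw [hρ]
    refine (mul_le_mul_of_nonneg_left hm1r (by positivity)).trans (le_of_eq ?_)
    ring
  have hcW : 0 < c * (W:ℝ) ^ (7 / 4 : ℝ) := by positivity
  have hdm := det_main hS.ok hW hh2 (g * (v.1 / g), g * (v.2 / g)) hρ5 hm1' hF hcW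
    (fun q hq => hpr q hq) (fun q hb => hslow F hF q hb) (hc1 _).le
    (show (0:ℝ) ≤ y ^ 33 by positivity) (fun j hj => (hc2 ((v.1 / g, v.2 / g), j)
      (Finset.mem_product.2 ⟨hgrid, Finset.mem_range.2 hj⟩)).le)
  have hX : 9 * (y * (4 * ρ) ^ (7 / 4 : ℝ)) / (c * (W:ℝ) ^ (7 / 4 : ℝ)) =
      9 * 4 ^ (7 / 4 : ℝ) / c * y ^ 29 := by
    rw [hρ]
    exact numX hyp hWr hc
  rw [hX] at hdm
  have hBk := card_Bks hS.ok hW hS.w_le hS.h_le hWn
  rw [← hyU] at hBk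
  have hBk2 : ((Bks D W).card : ℝ) / 2 ^ m1 ≤ 9 * y ^ 40 / 2 ^ m1 := by
    apply div_le_div_of_nonneg_right _ (by positivity)
    rw [← pow_mul] at hBk
    exact hBk
  have hnum := num1 hK1p.le hy500
  rw [← hm1] at hnum
  have hK : 98 * (9 * 4 ^ (7 / 4 : ℝ) / c * y ^ 29 + y ^ 33) = K1 * y ^ 29 + 98 * y ^ 33 := by
    rw [hK1]; ring
  linarith

end Pool.Agent.Y977.ME
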