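import Pool.Agent.Y985.ME.Stm
import Pool.Agent.H984R4.NP.Det

/-!
ME-NEAR, deterministic part: the number of the blocks near the path and near a point.
-/

set_option autoImplicit false

namespace Pool.Agent.Y977.ME

open H974 Finset H342P H984P H984N
open Pool.Agent.Y985.ME

open Classical in
/-- The blocks with corner within distance `r` of `v`. -/
noncomputable def Qs (D : Dm) (W : ℤ) (v : Vtx) (r : ℝ) : Finset Vtx :=
  (Bks D W).filter (fun q => ((sd (q.1 * W, q.2 * W) v : ℤ) : ℝ) ≤ r)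

/-- The block is visited. -/
def Vq (D : Dm) (W : ℤ) (q : Vtx) (F : Finset Edg) : Prop :=
  ∃ t ≤ D.len F, blk W (D.walk F t).1 = q

open Classical in
/-- The times near `v`. -/
noncomputable def Ts (D : Dm) (v : Vtx) (r : ℝ) (F : Finset Edg) : Finset ℕ :=
  (Finset.range (D.len F + 1)).filter (fun t => ((sd (D.walk F t).1 v : ℤ) : ℝ) ≤ r)

theorem mem_Qs {D : Dm} {W : ℤ} {v : Vtx} {r : ℝ} {q : Vtx} :
    q ∈ Qs D W v r ↔ q ∈ Bks D W ∧ ((sd (q.1 * W, q.2 * W) v : ℤ) : ℝ) ≤ r := by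
  unfold Qs
  rw [Finset.mem_filter]

theorem mem_Ts {D : Dm} {v : Vtx} {r : ℝ} {F : Finset Edg} {t : ℕ} :
    t ∈ Ts D v r F ↔ t ≤ D.len F ∧ ((sd (D.walk F t).1 v : ℤ) : ℝ) ≤ r := by
  unfold Ts
  rw [Finset.mem_filter, Finset.mem_range, Nat.lt_succ_iff]

theorem blk_bd {W : ℤ} (hW : 0 < W) (v : Vtx) :
    ((blk W v).1 * W ≤ v.1 ∧ v.1 < (blk W v).1 * W + W) ∧
    ((blk W v).2 * W ≤ v.2 ∧ v.2 < (blk W v).2 * W + W) := by
  unfold blk
  have h1 := Int.mul_ediv_add_emod v.1 W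
  have h2 := Int.emod_nonneg v.1 hW.ne'
  have h3 := Int.emod_lt_of_pos v.1 hW
  have h4 := Int.mul_ediv_add_emod v.2 W
  have h5 := Int.emod_nonneg v.2 hW.ne'
  have h6 := Int.emod_lt_of_pos v.2 hW
  have h7 := mul_comm W (v.1 / W)
  have h8 := mul_comm W (v.2 / W)
  dsimp only
  refine ⟨⟨?_, ?_⟩, ⟨?_, ?_⟩⟩ <;> linarith

theorem sd_blk {W : ℤ} (hW : 0 < W) (v : Vtx) :
    sd v ((blk W v).1 * W, (blk W v).2 * W) ≤ W := by
  have h := blk_bd hW v
  rw [det_sd_eq]
  dsimp only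
  omega

theorem sd_smul {W : ℤ} (hW : 0 < W) (q q' : Vtx) :
    sd (q.1 * W, q.2 * W) (q'.1 * W, q'.2 * W) = sd q q' * W := by
  unfold sd
  dsimp only
  rw [← sub_mul, ← sub_mul, abs_mul, abs_mul, abs_of_pos hW, max_mul_of_nonneg _ _ hW.le]

/-- close vertices are in neighbouring blocks -/
theorem blk_close {W : ℤ} (hW : 0 < W) {u v : Vtx} (h : sd u v ≤ W) :
    sd (blk W u) (blk W v) ≤ 1 := by
  rw [det_sd_eq] at h
  have key : ∀ x y : ℤ, x - y ≤ W → x / W - y / W ≤ 1 := by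
    intro x y hxy
    have h1 : x / W ≤ (y + W) / W := Int.ediv_le_ediv hW (by linarith)
    rw [Int.add_ediv_of_dvd_right (dvd_refl W), Int.ediv_self hW.ne'] at h1
    linarith
  have h1 := key u.1 v.1 (by omega)
  have h2 := key v.1 u.1 (by omega)
  have h3 := key u.2 v.2 (by omega)
  have h4 := key v.2 u.2 (by omega)
  rw [det_sd_eq]
  unfold blk
  dsimp only
  omega

theorem blk_mem {D : Dm} {W : ℤ} (hW : 0 < W) {v : Vtx} (h : inR D.l D.r 0 D.h v) :
    blk W v ∈ Bks D W := by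
  unfold Bks blk
  obtain ⟨⟨h1, h2⟩, ⟨h3, h4⟩⟩ := h
  rw [Finset.mem_product, Finset.mem_Icc, Finset.mem_Icc]
  dsimp only
  exact ⟨⟨Int.ediv_le_ediv hW h1, Int.ediv_le_ediv hW h2⟩,
    ⟨Int.ediv_nonneg h3 hW.le, Int.ediv_le_ediv hW h4⟩⟩

theorem sd_triR (u v w : Vtx) {a b : ℝ} (h1 : ((sd u v : ℤ) : ℝ) ≤ a)
    (h2 : ((sd v w : ℤ) : ℝ) ≤ b) : ((sd u w : ℤ) : ℝ) ≤ a + b := by
  have h := det_sd_tri u v w
  have h' : ((sd u w : ℤ) : ℝ) ≤ ((sd u v : ℤ) : ℝ) + ((sd v w : ℤ) : ℝ) := by exact_mod_cast h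
  linarith

open Classical in
/-- The blocks near the path are near the visited blocks. -/
theorem touch_le {D : Dm} (hD : D.Ok) {W : ℤ} (hW : 0 < W) (v : Vtx) (r : ℝ) {F : Finset Edg}
    (hF : F ⊆ D.edges) :
    ((Qs D W v r).filter (fun q => Tch D W q F)).card ≤
      ((Qs D W v (r + 3 * W)).filter (fun q => Vq D W q F)).card * 49 := by
  have hsub : (Qs D W v r).filter (fun q => Tch D W q F) ⊆
      ((Qs D W v (r + 3 * W)).filter (fun q => Vq D W q F)).biUnion
        (fun q => Finset.Icc (q.1 - 3) (q.1 + 3) ×ˢ Finset.Icc (q.2 - 3) (q.2 + 3)) := by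
    intro q hq
    rw [Finset.mem_filter, mem_Qs] at hq
    obtain ⟨⟨hqB, hqr⟩, t, ht, htq⟩ := hq
    rw [Finset.mem_biUnion]
    refine ⟨blk W (D.walk F t).1, ?_, ?_⟩
    · rw [Finset.mem_filter, mem_Qs]
      refine ⟨⟨blk_mem hW (walk_in hD hF t), ?_⟩, t, ht, rfl⟩
      have h1 := sd_smul hW (blk W (D.walk F t).1) q
      have h2 : ((sd ((blk W (D.walk F t).1).1 * W, (blk W (D.walk F t).1).2 * W)
          (q.1 * W, q.2 * W) : ℤ) : ℝ) ≤ 3 * W := by
        rw [h1]
        have h3 : sd (blk W (D.walk F t).1) q * W ≤ 3 * W :=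
          mul_le_mul_of_nonneg_right htq hW.le
        exact_mod_cast h3
      have h3 := sd_triR _ _ _ h2 hqr
      linarith
    · rw [det_sd_eq] at htq
      rw [Finset.mem_product, Finset.mem_Icc, Finset.mem_Icc]
      omega
  refine (Finset.card_le_card hsub).trans (Finset.card_biUnion_le_card_mul _ _ _ ?_)
  intro q _
  rw [Finset.card_product, Int.card_Icc, Int.card_Icc]
  have h1 : (q.1 + 3 + 1 - (q.1 - 3)).toNat = 7 := by omega
  have h2 : (q.2 + 3 + 1 - (q.2 - 3)).toNat = 7 := by omega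
  rw [h1, h2]

open Classical in
/-- The visited blocks which are not bad. -/
theorem good_le {D : Dm} (hD : D.Ok) {W : ℤ} (hW : 0 < W) (hh : 2 * W ≤ D.h) (v : Vtx) (r : ℝ)
    {F : Finset Edg} (hF : F ⊆ D.edges) {Bad : Vtx → Prop} {m : ℝ}
    (hB : ∀ q, ¬ Bad q → ∀ k l : ℕ, k ≤ l → l ≤ D.len F →
      (∀ t, k ≤ t → t ≤ l → sd (blk W (D.walk F t).1) q ≤ 1) →
      W ≤ sd (D.walk F k).1 (D.walk F l).1 → m ≤ ((l - k : ℕ) : ℝ)) :
    (((Qs D W v r).filter (fun q => Vq D W q F ∧ ¬ Bad q)).card : ℝ) * m ≤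
      9 * ((Ts D v (r + 2 * W) F).card : ℝ) := by
  set S := (Qs D W v r).filter (fun q => Vq D W q F ∧ ¬ Bad q) with hS
  set T := Ts D v (r + 2 * W) F with hT
  have hstep := fun s => walk_step D F s
  -- many times near each block
  have h1 : ∀ q ∈ S, m ≤ ((T.filter (fun s => sd (blk W (D.walk F s).1) q ≤ 1)).card : ℝ) := by
    intro q hq
    rw [hS, Finset.mem_filter, mem_Qs] at hq
    obtain ⟨⟨hqB, hqr⟩, ⟨t, ht, htq⟩, hnb⟩ := hq
    have main : ∃ k l : ℕ, k ≤ l ∧ l ≤ D.len F ∧ W ≤ sd (D.walk F k).1 (D.walk F l).1 ∧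
        ∀ s, k ≤ s → s ≤ l → sd (D.walk F t).1 (D.walk F s).1 ≤ W := by
      have hl := walk_len hD hF
      have h0 := walk_zero D F
      have hfar : 2 * W ≤ sd (D.walk F 0).1 (D.walk F (D.len F)).1 := by
        rw [hl, h0, det_sd_eq]
        simp only [Dm.start, Dm.stop]
        omega
      have htri := det_sd_tri (D.walk F 0).1 (D.walk F t).1 (D.walk F (D.len F)).1
      have hcm := det_sd_comm (D.walk F 0).1 (D.walk F t).1
      by_cases hc : W ≤ sd (D.walk F t).1 (D.walk F (D.len F)).1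
      · obtain ⟨i, h1, h2, h3, h4⟩ := det_first (fun s => (D.walk F s).1) hstep ht hc
        refine ⟨t, i, h1, h2, h3, fun s hs hs' => ?_⟩
        have := h4 s hs hs'
        omega
      · obtain ⟨i, h1, h2, h3, h4⟩ := det_last (fun s => (D.walk F s).1) hstep (Nat.zero_le t)
          (w := W) (by omega)
        refine ⟨i, t, h2, ht, by rw [det_sd_comm]; exact h3, fun s hs hs' => ?_⟩
        have := h4 s hs hs'
        omega
    obtain ⟨k, l, hkl, hl, hex, hnear⟩ := main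
    have hb : ∀ s, k ≤ s → s ≤ l → sd (blk W (D.walk F s).1) q ≤ 1 := by
      intro s hs hs'
      have h5 := blk_close hW (hnear s hs hs')
      rw [htq, det_sd_comm] at h5
      exact h5
    refine (hB q hnb k l hkl hl hb hex).trans ?_
    have hsub : Finset.Icc k l ⊆ T.filter (fun s => sd (blk W (D.walk F s).1) q ≤ 1) := by
      intro s hs
      rw [Finset.mem_Icc] at hs
      rw [Finset.mem_filter, hT, mem_Ts]
      refine ⟨⟨hs.2.trans hl, ?_⟩, hb s hs.1 hs.2⟩
      have h6 := sd_blk hW (D.walk F s).1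
      have h7 := sd_smul hW (blk W (D.walk F s).1) q
      have h8 : sd (blk W (D.walk F s).1) q * W ≤ 1 * W :=
        mul_le_mul_of_nonneg_right (hb s hs.1 hs.2) hW.le
      have h9 := det_sd_tri (D.walk F s).1
        ((blk W (D.walk F s).1).1 * W, (blk W (D.walk F s).1).2 * W) (q.1 * W, q.2 * W)
      have h10 : sd (D.walk F s).1 (q.1 * W, q.2 * W) ≤ 2 * W := by
        rw [h7] at h9
        linarith
      have h11 : ((sd (D.walk F s).1 (q.1 * W, q.2 * W) : ℤ) : ℝ) ≤ 2 * W := by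
        exact_mod_cast h10
      have := sd_triR _ _ _ h11 hqr
      linarith
    have hc := Finset.card_le_card hsub
    rw [Nat.card_Icc] at hc
    have : l - k ≤ (T.filter (fun s => sd (blk W (D.walk F s).1) q ≤ 1)).card := by omega
    exact_mod_cast this
  -- every time is near at most nine blocks
  have h2 : ∀ s ∈ T, (S.filter (fun q => sd (blk W (D.walk F s).1) q ≤ 1)).card ≤ 9 := by
    intro s _
    have hsub : S.filter (fun q => sd (blk W (D.walk F s).1) q ≤ 1) ⊆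
        Finset.Icc ((blk W (D.walk F s).1).1 - 1) ((blk W (D.walk F s).1).1 + 1) ×ˢ
          Finset.Icc ((blk W (D.walk F s).1).2 - 1) ((blk W (D.walk F s).1).2 + 1) := by
      intro q hq
      rw [Finset.mem_filter] at hq
      have h3 := hq.2
      rw [det_sd_eq] at h3
      rw [Finset.mem_product, Finset.mem_Icc, Finset.mem_Icc]
      omega
    refine (Finset.card_le_card hsub).trans ?_
    rw [Finset.card_product, Int.card_Icc, Int.card_Icc]
    have h4 : ((blk W (D.walk F s).1).1 + 1 + 1 - ((blk W (D.walk F s).1).1 - 1)).toNat = 3 := by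
      omega
    have h5 : ((blk W (D.walk F s).1).2 + 1 + 1 - ((blk W (D.walk F s).1).2 - 1)).toNat = 3 := by
      omega
    rw [h4, h5]
  have h3 : ∑ q ∈ S, (T.filter (fun s => sd (blk W (D.walk F s).1) q ≤ 1)).card =
      ∑ s ∈ T, (S.filter (fun q => sd (blk W (D.walk F s).1) q ≤ 1)).card := by
    simp only [Finset.card_filter]
    rw [Finset.sum_comm]
  have h4 : (S.card : ℝ) * m ≤
      ∑ q ∈ S, ((T.filter (fun s => sd (blk W (D.walk F s).1) q ≤ 1)).card : ℝ) := by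
    have := Finset.card_nsmul_le_sum S _ m h1
    rwa [nsmul_eq_mul] at this
  have h5 : ∑ q ∈ S, (T.filter (fun s => sd (blk W (D.walk F s).1) q ≤ 1)).card ≤ T.card * 9 := by
    rw [h3]
    have := Finset.sum_le_card_nsmul T _ 9 h2
    rwa [smul_eq_mul] at this
  have h6 : (∑ q ∈ S, ((T.filter (fun s => sd (blk W (D.walk F s).1) q ≤ 1)).card : ℝ)) ≤
      (T.card : ℝ) * 9 := by exact_mod_cast h5
  linarith

end Pool.Agent.Y977.ME
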