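import Pool.Agent.Y977.ME.NearA
import Pool.Agent.H974R2.Split

/-!
ME-NEAR: no small ball contains many of the blocks near the path.
-/

set_option autoImplicit false

namespace Pool.Agent.Y977.ME

open H974 Finset H342P H984P H984N
open Pool.Agent.Y985.ME

theorem hok : Ok (fun _ : Edg => (1/2:ℝ)) := fun _ => ⟨by norm_num, by norm_num⟩

theorem card_ind {ι : Type*} (s : Finset ι) (p : ι → Prop) [DecidablePred p] :
    ((s.filter p).card : ℝ) = ∑ q ∈ s, ind (p q) := by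
  rw [Finset.card_filter]
  push_cast
  apply Finset.sum_congr rfl
  intro q _
  by_cases h : p q
  · rw [if_pos h, ind_of h]
  · rw [if_neg h, ind_not_of h]

theorem iter_half (a : ℕ → ℝ) (B : ℝ) (m : ℕ) (h : ∀ j < m, a j ≤ B + a (j + 1) / 2) :
    a 0 + 2 * B / 2 ^ m ≤ 2 * B + a m / 2 ^ m := by
  induction m with
  | zero => simp; linarith
  | succ m ih =>
    have h1 := ih (fun j hj => h j (by omega))
    have h2 := h m (by omega)
    have h3 : (0:ℝ) < 2 ^ m := by positivity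
    have h4 : a m / 2 ^ m ≤ (B + a (m + 1) / 2) / 2 ^ m :=
      div_le_div_of_nonneg_right h2 h3.le
    have h5 : 2 * B / 2 ^ (m + 1) = B / 2 ^ m := by
      rw [pow_succ]; field_simp
    have h6 : a (m + 1) / 2 ^ (m + 1) = (a (m + 1) / 2) / 2 ^ m := by
      rw [pow_succ]; field_simp
    have h7 : (B + a (m + 1) / 2) / 2 ^ m = B / 2 ^ m + (a (m + 1) / 2) / 2 ^ m := by
      rw [add_div]
    have h8 : 2 * B / 2 ^ m = B / 2 ^ m + B / 2 ^ m := by
      rw [← add_div]; ring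
    rw [h5, h6]
    linarith

/-- The fluctuation of the number of bad blocks. -/
noncomputable def fl (D : Dm) (W : ℤ) (Bad : Vtx → Finset Edg → Prop) (v : Vtx) (r : ℝ)
    (F : Finset Edg) : ℝ :=
  ∑ q ∈ Qs D W v r, ind (Tch D W q F) * (ind (Bad q F) - P D.edges (Bad q))

/-- The number of the blocks near the path and near `v`. -/
noncomputable def Aq (D : Dm) (W : ℤ) (v : Vtx) (r : ℝ) (F : Finset Edg) : ℝ :=
  ∑ q ∈ Qs D W v r, ind (Tch D W q F)

theorem Aq_nonneg (D : Dm) (W : ℤ) (v : Vtx) (r : ℝ) (F : Finset Edg) : 0 ≤ Aq D W v r F :=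
  Finset.sum_nonneg (fun _ _ => ind_nonneg _)

theorem Qs_sub (D : Dm) (W : ℤ) (v : Vtx) (r : ℝ) : Qs D W v r ⊆ Bks D W := by
  intro q hq
  exact (mem_Qs.1 hq).1

theorem Aq_le (D : Dm) (W : ℤ) (v : Vtx) (r : ℝ) (F : Finset Edg) :
    Aq D W v r F ≤ ((Bks D W).card : ℝ) := by
  unfold Aq
  refine (Finset.sum_le_sum (fun q _ => ind_le_one _)).trans ?_
  rw [Finset.sum_const, nsmul_eq_mul, mul_one]
  exact_mod_cast Finset.card_le_card (Qs_sub D W v r)

theorem rec_le {D : Dm} (hD : D.Ok) {W : ℤ} (hW : 0 < W) (hh : 2 * W ≤ D.h) (v : Vtx) (r : ℝ)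
    {F : Finset Edg} (hF : F ⊆ D.edges) {Bad : Vtx → Finset Edg → Prop} {m : ℝ} (hm : 0 < m)
    (hη : ∀ q ∈ Bks D W, P D.edges (Bad q) ≤ 1 / 98)
    (hB : ∀ q, ¬ Bad q F → ∀ k l : ℕ, k ≤ l → l ≤ D.len F →
      (∀ t, k ≤ t → t ≤ l → sd (blk W (D.walk F t).1) q ≤ 1) →
      W ≤ sd (D.walk F k).1 (D.walk F l).1 → m ≤ ((l - k : ℕ) : ℝ)) :
    Aq D W v r F ≤ 49 * (9 * ((Ts D v (r + 5 * W) F).card : ℝ) / m +
      |fl D W Bad v (r + 3 * W) F|) + Aq D W v (r + 3 * W) F / 2 := by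
  classical
  have h1 := touch_le hD hW v r hF
  have h1' : Aq D W v r F ≤
      (((Qs D W v (r + 3 * W)).filter (fun q => Vq D W q F)).card : ℝ) * 49 := by
    unfold Aq
    rw [← card_ind]
    exact_mod_cast h1
  have h2 := good_le hD hW hh v (r + 3 * W) hF (Bad := fun q => Bad q F) hB
  rw [show r + 3 * (W:ℝ) + 2 * W = r + 5 * W by ring] at h2
  have h3 : (((Qs D W v (r + 3 * W)).filter (fun q => Vq D W q F)).card : ℝ) ≤
      (((Qs D W v (r + 3 * W)).filter (fun q => Vq D W q F ∧ ¬ Bad q F)).card : ℝ) +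
      ∑ q ∈ Qs D W v (r + 3 * W), ind (Tch D W q F) * ind (Bad q F) := by
    rw [card_ind, card_ind, ← Finset.sum_add_distrib]
    apply Finset.sum_le_sum
    intro q _
    by_cases hV : Vq D W q F
    · by_cases hb : Bad q F
      · have hT : Tch D W q F := by
          obtain ⟨t, ht, htq⟩ := hV
          refine ⟨t, ht, ?_⟩
          rw [htq, det_sd_self]
          norm_num
        rw [ind_of hV, ind_of hT, ind_of hb]
        have := ind_nonneg (Vq D W q F ∧ ¬ Bad q F)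
        linarith
      · rw [ind_of hV, ind_of ⟨hV, hb⟩]
        have h5 := ind_nonneg (Tch D W q F)
        have h6 := ind_nonneg (Bad q F)
        have := mul_nonneg h5 h6
        linarith
    · rw [ind_not_of hV]
      have h5 := ind_nonneg (Tch D W q F)
      have h6 := ind_nonneg (Bad q F)
      have := mul_nonneg h5 h6
      have := ind_nonneg (Vq D W q F ∧ ¬ Bad q F)
      linarith
  have h4 : ∑ q ∈ Qs D W v (r + 3 * W), ind (Tch D W q F) * ind (Bad q F) ≤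
      |fl D W Bad v (r + 3 * W) F| + Aq D W v (r + 3 * W) F * (1 / 98) := by
    have h5 : ∑ q ∈ Qs D W v (r + 3 * W), ind (Tch D W q F) * ind (Bad q F) =
        fl D W Bad v (r + 3 * W) F +
        ∑ q ∈ Qs D W v (r + 3 * W), ind (Tch D W q F) * P D.edges (Bad q) := by
      unfold fl
      rw [← Finset.sum_add_distrib]
      apply Finset.sum_congr rfl
      intro q _
      ring
    rw [h5]
    apply add_le_add (le_abs_self _)
    unfold Aq
    rw [Finset.sum_mul]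
    apply Finset.sum_le_sum
    intro q hq
    exact mul_le_mul_of_nonneg_left (hη q (Qs_sub D W v _ hq)) (ind_nonneg _)
  have h7 : (((Qs D W v (r + 3 * W)).filter (fun q => Vq D W q F ∧ ¬ Bad q F)).card : ℝ) ≤
      9 * ((Ts D v (r + 5 * W) F).card : ℝ) / m := by
    rw [le_div_iff₀ hm]
    exact h2
  linarith

theorem Ts_mono (D : Dm) (v : Vtx) {r r' : ℝ} (h : r ≤ r') (F : Finset Edg) :
    ((Ts D v r F).card : ℝ) ≤ ((Ts D v r' F).card : ℝ) := by
  have : Ts D v r F ⊆ Ts D v r' F := by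
    intro t ht
    rw [mem_Ts] at ht ⊢
    exact ⟨ht.1, ht.2.trans h⟩
  exact_mod_cast Finset.card_le_card this

theorem det_main {D : Dm} (hD : D.Ok) {W : ℤ} (hW : 0 < W) (hh : 2 * W ≤ D.h) (v : Vtx) {ρ : ℝ}
    (hρ : 5 * (W:ℝ) ≤ ρ) {m1 : ℕ} (hm1 : 3 * (W:ℝ) * m1 ≤ ρ)
    {F : Finset Edg} (hF : F ⊆ D.edges) {Bad : Vtx → Finset Edg → Prop} {m : ℝ} (hm : 0 < m)
    (hη : ∀ q ∈ Bks D W, P D.edges (Bad q) ≤ 1 / 98)
    (hB : ∀ q, ¬ Bad q F → ∀ k l : ℕ, k ≤ l → l ≤ D.len F →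
      (∀ t, k ≤ t → t ≤ l → sd (blk W (D.walk F t).1) q ≤ 1) →
      W ≤ sd (D.walk F k).1 (D.walk F l).1 → m ≤ ((l - k : ℕ) : ℝ))
    {X s : ℝ} (hX : ((Ts D v (4 * ρ) F).card : ℝ) ≤ X) (hs0 : 0 ≤ s)
    (hs : ∀ j < m1, |fl D W Bad v (2 * ρ + 3 * W * ((j : ℕ) + 1)) F| ≤ s) :
    Aq D W v (2 * ρ) F ≤ 98 * (9 * X / m + s) + ((Bks D W).card : ℝ) / 2 ^ m1 := by
  have hWr : (0:ℝ) < W := by exact_mod_cast hW
  have h1 := iter_half (fun j => Aq D W v (2 * ρ + 3 * W * (j:ℝ)) F) (49 * (9 * X / m + s)) m1 ?_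
  · have h2 := Aq_le D W v (2 * ρ + 3 * W * (m1:ℝ)) F
    have h3 : Aq D W v (2 * ρ + 3 * W * (m1:ℝ)) F / 2 ^ m1 ≤ ((Bks D W).card : ℝ) / 2 ^ m1 :=
      div_le_div_of_nonneg_right h2 (by positivity)
    have hX0 : 0 ≤ X := le_trans (by positivity) hX
    have h4 : Aq D W v (2 * ρ + 3 * W * ((0:ℕ):ℝ)) F = Aq D W v (2 * ρ) F := by
      simp
    have h5 : 0 ≤ 2 * (49 * (9 * X / m + s)) / 2 ^ m1 := by positivity
    rw [h4] at h1
    linarith
  · intro j hj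
    have h2 := rec_le hD hW hh v (2 * ρ + 3 * W * (j:ℝ)) hF hm hη hB
    have h3 : (2 * ρ + 3 * (W:ℝ) * (j:ℝ) + 3 * W) = 2 * ρ + 3 * W * ((j : ℕ) + 1) := by ring
    rw [h3] at h2
    have h4 := hs j hj
    have h5 : 2 * ρ + 3 * (W:ℝ) * (j:ℝ) + 5 * W ≤ 4 * ρ := by
      have h6 : (j:ℝ) ≤ m1 := by exact_mod_cast hj.le
      have h7 : 3 * (W:ℝ) * j ≤ 3 * W * m1 := mul_le_mul_of_nonneg_left h6 (by positivity)
      linarith
    have h8 := (Ts_mono D v h5 F).trans hX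
    have h9 : 9 * ((Ts D v (2 * ρ + 3 * (W:ℝ) * (j:ℝ) + 5 * W) F).card : ℝ) / m ≤ 9 * X / m :=
      div_le_div_of_nonneg_right (by linarith) hm.le
    have h10 : (((j + 1 : ℕ) : ℝ)) = (j:ℝ) + 1 := by push_cast; ring
    simp only [h10]
    linarith

/-- Chebyshev -/
theorem cheb (S : Finset Edg) (Z : Finset Edg → ℝ) {s V : ℝ} (hs : 0 < s)
    (hV : E S (fun F => Z F ^ 2) ≤ V) : P S (fun F => s ≤ |Z F|) ≤ V / s ^ 2 := by
  have h1 : P S (fun F => s ≤ |Z F|) ≤ E S (fun F => (1 / s ^ 2) * Z F ^ 2) := by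
    refine Ex_mono hok (fun F _ => ?_)
    by_cases h : s ≤ |Z F|
    · rw [ind_of h]
      have h2 : s ^ 2 ≤ Z F ^ 2 := by
        rw [← sq_abs (Z F)]
        exact pow_le_pow_left₀ hs.le h 2
      rw [one_div, inv_mul_eq_div, le_div_iff₀ (by positivity)]
      linarith
    · rw [ind_not_of h]
      positivity
  have h2 : E S (fun F => (1 / s ^ 2) * Z F ^ 2) = (1 / s ^ 2) * E S (fun F => Z F ^ 2) :=
    Ex_mul_left _ _ _ _
  rw [h2] at h1
  refine h1.trans ?_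
  rw [one_div, inv_mul_eq_div]
  exact div_le_div_of_nonneg_right hV (by positivity)

/-- The probability of a large fluctuation. -/
theorem fl_prob (hL : S_LLN) {D : Dm} (hD : D.Ok) {W : ℤ} (hW : 1 ≤ W)
    {Bad : Vtx → Finset Edg → Prop} (hloc : ∀ q F, Bad q F ↔ Bad q (F ∩ Lam D W q))
    {Mq : ℝ} (hM : ∑ q ∈ Bks D W, P D.edges (Tch D W q) ≤ Mq) (v : Vtx) (r : ℝ) {s : ℝ}
    (hs : 0 < s) :
    P D.edges (fun F => s ≤ |fl D W Bad v r F|) ≤ 121 * Mq / s ^ 2 := by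
  apply cheb _ _ hs
  have h := hL D W hD hW (Qs D W v r) (Qs_sub D W v r) (fun q F => ind (Bad q F)) 1
    (fun q F => ind_congr (hloc q F)) (fun q _ => ?_)
  · refine h.trans ?_
    have h1 : ∑ q ∈ Qs D W v r, P D.edges (Tch D W q) ≤ ∑ q ∈ Bks D W, P D.edges (Tch D W q) :=
      Finset.sum_le_sum_of_subset_of_nonneg (Qs_sub D W v r)
        (fun q _ _ => Pr_nonneg hok _ _)
    linarith
  · refine Ex_le_of_le hok (fun F _ => ?_)
    have h1 := ind_nonneg (Bad q F)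
    have h2 := ind_le_one (Bad q F)
    exact pow_le_one₀ h1 h2

end Pool.Agent.Y977.ME
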