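import Pool.Agent.Y977.ME.NearB

/-!
ME-NEAR: no small ball contains many of the blocks near the path (conclusion).
-/

set_option autoImplicit false

namespace Pool.Agent.Y977.ME

open H974 Finset H342P H984P H984N
open Pool.Agent.Y985.ME

theorem pw {y : ℝ} (hy : 0 < y) (a : ℝ) (k : ℕ) (hk : a = k / 20) : (y ^ 20) ^ a = y ^ k := by
  rw [hk, ← Real.rpow_natCast y 20, ← Real.rpow_mul hy.le, ← Real.rpow_natCast y k]
  congr 1
  push_cast
  ring

/-- numerical inequality for the number of the blocks -/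
theorem num1 {K1 y : ℝ} (hK : 0 ≤ K1) (h1 : 500 + 4 * K1 ≤ y) :
    K1 * y ^ 29 + 98 * y ^ 33 + 9 * y ^ 40 / 2 ^ ⌊y ^ 16 / 3⌋₊ < y ^ 34 := by
  have hy : 0 < y := by linarith
  have hy1 : 1 ≤ y := by linarith
  have h2 : (y ^ 16 / 3) < 2 ^ ⌊y ^ 16 / 3⌋₊ := by
    have h3 := Nat.lt_floor_add_one (y ^ 16 / 3)
    have h4 : ⌊y ^ 16 / 3⌋₊ + 1 ≤ 2 ^ ⌊y ^ 16 / 3⌋₊ := Nat.lt_two_pow_self
    have h5 : ((⌊y ^ 16 / 3⌋₊ : ℝ)) + 1 ≤ 2 ^ ⌊y ^ 16 / 3⌋₊ := by exact_mod_cast h4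
    linarith
  have h6 : 9 * y ^ 40 / 2 ^ ⌊y ^ 16 / 3⌋₊ ≤ 27 * y ^ 24 := by
    rw [div_le_iff₀ (by positivity)]
    have h7 : 27 * y ^ 24 * (y ^ 16 / 3) ≤ 27 * y ^ 24 * 2 ^ ⌊y ^ 16 / 3⌋₊ :=
      mul_le_mul_of_nonneg_left h2.le (by positivity)
    calc 9 * y ^ 40 = 27 * y ^ 24 * (y ^ 16 / 3) := by ring
      _ ≤ _ := h7
  have h8 : y ≤ y ^ 5 := le_self_pow₀ hy1 (by norm_num)
  have h9 : K1 * y ^ 29 ≤ y ^ 34 / 4 := by
    have h10 : K1 ≤ y ^ 5 / 4 := by linarith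
    calc K1 * y ^ 29 ≤ (y ^ 5 / 4) * y ^ 29 := mul_le_mul_of_nonneg_right h10 (by positivity)
      _ = y ^ 34 / 4 := by ring
  have h11 : 98 * y ^ 33 ≤ y ^ 34 / 4 := by
    calc 98 * y ^ 33 ≤ (y / 4) * y ^ 33 := mul_le_mul_of_nonneg_right (by linarith) (by positivity)
      _ = y ^ 34 / 4 := by ring
  have h12 : 27 * y ^ 24 ≤ y ^ 34 / 4 := by
    have h13 : y ≤ y ^ 10 := le_self_pow₀ hy1 (by norm_num)
    calc 27 * y ^ 24 ≤ (y ^ 10 / 4) * y ^ 24 :=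
          mul_le_mul_of_nonneg_right (by linarith) (by positivity)
      _ = y ^ 34 / 4 := by ring
  have h14 : 0 < y ^ 34 := by positivity
  linarith

/-- numerical inequality for the occupation -/
theorem num2 {Co l y : ℝ} (hCo : 0 ≤ Co) (hl : 0 < l) (hy1 : 1 ≤ y) (h1 : Co * l ^ 16 ≤ y) :
    Co * (y ^ 4 / 4) ^ 2 * Real.exp (-(y / l) ^ 8) ≤ y⁻¹ := by
  have hy : 0 < y := by linarith
  have h2 : Real.exp (-(y / l) ^ 8) ≤ 2 / ((y / l) ^ 8) ^ 2 := by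
    have h3 := Real.quadratic_le_exp_of_nonneg (x := (y / l) ^ 8) (by positivity)
    have h4 : ((y / l) ^ 8) ^ 2 / 2 ≤ Real.exp ((y / l) ^ 8) := by
      have : 0 ≤ (y / l) ^ 8 := by positivity
      linarith
    rw [Real.exp_neg, inv_eq_one_div, div_le_div_iff₀ (Real.exp_pos _) (by positivity)]
    linarith
  calc Co * (y ^ 4 / 4) ^ 2 * Real.exp (-(y / l) ^ 8)
      ≤ Co * (y ^ 4 / 4) ^ 2 * (2 / ((y / l) ^ 8) ^ 2) :=
        mul_le_mul_of_nonneg_left h2 (by positivity)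
    _ = (Co * l ^ 16) / (8 * y ^ 8) := by field_simp; ring
    _ ≤ y / (8 * y ^ 8) := div_le_div_of_nonneg_right h1 (by positivity)
    _ ≤ y⁻¹ := by
        rw [inv_eq_one_div, div_le_div_iff₀ (by positivity) hy]
        have : y ^ 2 ≤ y ^ 8 := pow_le_pow_right₀ hy1 (by norm_num)
        nlinarith

theorem card_Bks {D : Dm} (hD : D.Ok) {W : ℤ} (hW : 0 < W) {n : ℝ}
    (h1 : ((D.r - D.l : ℤ) : ℝ) ≤ n) (h2 : (D.h : ℝ) ≤ n) (h3 : (W : ℝ) ≤ n) :
    ((Bks D W).card : ℝ) ≤ 9 * (n / W) ^ 2 := by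
  have hWr : (0:ℝ) < W := by exact_mod_cast hW
  have hU : 1 ≤ n / W := by rw [le_div_iff₀ hWr]; linarith
  have key : ∀ a b : ℤ, a ≤ b → ((b - a : ℤ) : ℝ) ≤ n →
      (((Finset.Icc (a / W) (b / W)).card : ℕ) : ℝ) ≤ 3 * (n / W) := by
    intro a b hab hn
    have h4 : ((Finset.Icc (a / W) (b / W)).card : ℤ) = b / W + 1 - a / W := by
      rw [Int.card_Icc, Int.toNat_of_nonneg]
      have := Int.ediv_le_ediv hW hab
      linarith
    have h5 : (((Finset.Icc (a / W) (b / W)).card : ℕ) : ℝ) = ((b / W : ℤ) : ℝ) + 1 -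
        ((a / W : ℤ) : ℝ) := by
      have : (((Finset.Icc (a / W) (b / W)).card : ℤ) : ℝ) = ((b / W + 1 - a / W : ℤ) : ℝ) := by
        rw [h4]
      push_cast at this
      push_cast
      linarith
    rw [h5]
    have h6 : (b / W) * W ≤ b := Int.ediv_mul_le b hW.ne'
    have h7 : a < (a / W + 1) * W := Int.lt_ediv_add_one_mul_self a hW
    have h6' : ((b / W : ℤ) : ℝ) * W ≤ b := by exact_mod_cast h6
    have h7' : (a : ℝ) < (((a / W : ℤ) : ℝ) + 1) * W := by exact_mod_cast h7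
    have h8 : (((b / W : ℤ) : ℝ) + 1 - ((a / W : ℤ) : ℝ)) * W ≤ n + 2 * W := by
      push_cast at hn
      nlinarith
    have h9 : ((b / W : ℤ) : ℝ) + 1 - ((a / W : ℤ) : ℝ) ≤ (n + 2 * W) / W := by
      rw [le_div_iff₀ hWr]; exact h8
    have h10 : (n + 2 * W) / W = n / W + 2 := by field_simp
    linarith
  unfold Bks
  rw [Finset.card_product]
  push_cast
  have k1 := key D.l D.r (by have := hD.l_le; have := hD.le_r; omega) h1
  have k2 := key 0 D.h hD.h_pos.le (by simpa using h2)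
  rw [Int.zero_ediv] at k2
  have k3 : (0:ℝ) ≤ (((Finset.Icc (D.l / W) (D.r / W)).card : ℕ) : ℝ) := by positivity
  have k4 : (0:ℝ) ≤ (((Finset.Icc 0 (D.h / W)).card : ℕ) : ℝ) := by positivity
  nlinarith

/-- indices of the grid -/
noncomputable def Gi (D : Dm) (W g : ℤ) : Finset (ℤ × ℤ) :=
  Finset.Icc ((D.l - W - g) / g) ((D.r + g) / g) ×ˢ Finset.Icc (-g / g) ((D.h + g) / g)

theorem card_Gi {D : Dm} (hD : D.Ok) {W g : ℤ} (hW : 0 < W) (hg : W ≤ g) {n : ℝ}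
    (h1 : ((D.r - D.l : ℤ) : ℝ) ≤ n) (h2 : (D.h : ℝ) ≤ n) (h3 : (g : ℝ) ≤ n) :
    ((Gi D W g).card : ℝ) ≤ 36 * (n / g) ^ 2 := by
  have hg0 : 0 < g := by linarith
  have hgr : (0:ℝ) < g := by exact_mod_cast hg0
  have hU : 1 ≤ n / g := by rw [le_div_iff₀ hgr]; linarith
  have key : ∀ a b : ℤ, a ≤ b → ((b - a : ℤ) : ℝ) ≤ n + 3 * g →
      (((Finset.Icc (a / g) (b / g)).card : ℕ) : ℝ) ≤ 6 * (n / g) := by
    intro a b hab hn
    have h4 : ((Finset.Icc (a / g) (b / g)).card : ℤ) = b / g + 1 - a / g := by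
      rw [Int.card_Icc, Int.toNat_of_nonneg]
      have := Int.ediv_le_ediv hg0 hab
      linarith
    have h5 : (((Finset.Icc (a / g) (b / g)).card : ℕ) : ℝ) = ((b / g : ℤ) : ℝ) + 1 -
        ((a / g : ℤ) : ℝ) := by
      have : (((Finset.Icc (a / g) (b / g)).card : ℤ) : ℝ) = ((b / g + 1 - a / g : ℤ) : ℝ) := by
        rw [h4]
      push_cast at this
      push_cast
      linarith
    rw [h5]
    have h6 : (b / g) * g ≤ b := Int.ediv_mul_le b hg0.ne'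
    have h7 : a < (a / g + 1) * g := Int.lt_ediv_add_one_mul_self a hg0
    have h6' : ((b / g : ℤ) : ℝ) * g ≤ b := by exact_mod_cast h6
    have h7' : (a : ℝ) < (((a / g : ℤ) : ℝ) + 1) * g := by exact_mod_cast h7
    have h8 : (((b / g : ℤ) : ℝ) + 1 - ((a / g : ℤ) : ℝ)) * g ≤ n + 5 * g := by
      push_cast at hn
      nlinarith
    have h9 : ((b / g : ℤ) : ℝ) + 1 - ((a / g : ℤ) : ℝ) ≤ (n + 5 * g) / g := by
      rw [le_div_iff₀ hgr]; exact h8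
    have h10 : (n + 5 * g) / g = n / g + 5 := by field_simp
    linarith
  unfold Gi
  rw [Finset.card_product]
  push_cast
  have hWg : (W:ℝ) ≤ g := by exact_mod_cast hg
  have k1 := key (D.l - W - g) (D.r + g) (by have := hD.l_le; have := hD.le_r; omega) (by
    push_cast at h1 ⊢; linarith)
  have k2 := key (-g) (D.h + g) (by have := hD.h_pos; omega) (by push_cast; linarith)
  have k3 : (0:ℝ) ≤ (((Finset.Icc ((D.l - W - g) / g) ((D.r + g) / g)).card : ℕ) : ℝ) := by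
    positivity
  have k4 : (0:ℝ) ≤ (((Finset.Icc (-g / g) ((D.h + g) / g)).card : ℕ) : ℝ) := by positivity
  nlinarith

/-- every centre which matters is near a point of the grid -/
theorem grid {D : Dm} {W g : ℤ} (hW : 0 < W) (hg : 0 < g) {v q : Vtx} (hq : q ∈ Bks D W)
    (h : sd (q.1 * W, q.2 * W) v ≤ g) : (v.1 / g, v.2 / g) ∈ Gi D W g := by
  unfold Bks at hq
  rw [Finset.mem_product, Finset.mem_Icc, Finset.mem_Icc] at hq
  obtain ⟨⟨h1, h2⟩, ⟨h3, h4⟩⟩ := hq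
  have e1 : D.l < (D.l / W + 1) * W := Int.lt_ediv_add_one_mul_self D.l hW
  have e2 : (D.r / W) * W ≤ D.r := Int.ediv_mul_le D.r hW.ne'
  have e3 : (D.h / W) * W ≤ D.h := Int.ediv_mul_le D.h hW.ne'
  have f1 : D.l / W * W ≤ q.1 * W := mul_le_mul_of_nonneg_right h1 hW.le
  have f2 : q.1 * W ≤ D.r / W * W := mul_le_mul_of_nonneg_right h2 hW.le
  have f3 : 0 ≤ q.2 * W := mul_nonneg h3 hW.le
  have f4 : q.2 * W ≤ D.h / W * W := mul_le_mul_of_nonneg_right h4 hW.le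
  rw [det_sd_eq] at h
  dsimp only at h
  unfold Gi
  rw [Finset.mem_product, Finset.mem_Icc, Finset.mem_Icc]
  dsimp only
  have e1' : D.l < D.l / W * W + W := by linarith
  refine ⟨⟨Int.ediv_le_ediv hg ?_, Int.ediv_le_ediv hg ?_⟩,
    ⟨Int.ediv_le_ediv hg ?_, Int.ediv_le_ediv hg ?_⟩⟩ <;> omega

end Pool.Agent.Y977.ME
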